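import Mathlib
import Pool.Agent.H.MP_77d395_lc.A

set_option autoImplicit false

namespace Pool.Agent.H.MP_a4b8ee_gt

open Set Filter Function Cardinal PiNat Topology TopologicalSpace Pool.Agent.H.MP_77d395_lc

variable {X : Type} (f : X → ℕ → ℕ)

def G (n : ℕ) (φ : List ℕ → Set ℕ) : Prop := ∀ s : List ℕ, n ≤ s.length → φ s ∈ hyperfilter ℕ

def V (φ : List ℕ → Set ℕ) (n : ℕ) : Set X := {x | ∀ i, n ≤ i → f x i ∈ φ (res (f x) i)}

def Cy (s : List ℕ) : Set X := {x | res (f x) s.length = s}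

def Bs : Set (Set X) := {U | ∃ φ n, G n φ ∧ V f φ 0 = U}

def BC (S : Set X) : Prop := ∀ x ∉ S, ∀ᶠ n in atTop, Disjoint (Cy f (res (f x) n)) S

variable {f}

theorem cy {x z : X} {n : ℕ} : z ∈ Cy f (res (f x) n) ↔ ∀ ⦃m⦄, m < n → f z m = f x m := by
  rw [Cy, mem_ofPred_eq, res_length, res_eq_res]

theorem bc (φ : List ℕ → Set ℕ) (n : ℕ) : BC f (V f φ n) := fun x p => by
  obtain ⟨i, l, p⟩ : ∃ i, n ≤ i ∧ f x i ∉ φ (res (f x) i) := by simpa [V] using p
  refine (eventually_gt_atTop i).mono fun m g => disjoint_left.2 fun z a b => p ?_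
  rw [← cy.1 a g, ← res_eq_res.2 fun k l => cy.1 a (l.trans g)]
  exact b i l

theorem bu {S T : Set X} (a : BC f S) (b : BC f T) : BC f (S ∪ T) := fun x p =>
  ((a x fun c => p (.inl c)).and (b x fun c => p (.inr c))).mono fun _ c => disjoint_union_right.2 c

theorem be : BC f ∅ := fun _ _ => .of_forall fun _ => disjoint_empty _

theorem mr (x : ℕ → ℕ) {i j : ℕ} (h : j < i) : x j ∈ res x i := by
  induction h <;> simp [*]

theorem fa {x z : ℕ → ℕ} (h : ∀ i, x i ≤ z i) (n : ℕ) :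
    List.Forall₂ (· ≤ ·) (res x n) (res z n) := by
  induction n <;> simp [*]

variable [TopologicalSpace X]

def LF (C : Set (Set X)) (x : X) : Prop := ∃ t ∈ 𝓝 x, {B ∈ C | (B ∩ t).Nonempty}.Finite

theorem lu {ι : Type} {C : ι → Set (Set X)} {A J : Set ι} {x : X} (h : ∀ i ∈ A, LF (C i) x)
    {N : Set X} (n : N ∈ 𝓝 x) (j : J.Finite) (c : ∀ i ∈ A, ∀ B ∈ C i, ∀ z ∈ B, z ∈ N → i ∈ J) :
    LF (⋃ i ∈ A, C i) x := by
  choose! t t1 t2 using h
  have k := j.inter_of_right A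
  refine ⟨_, inter_mem n ((biInter_mem k).2 fun i p => t1 i p.1), (k.biUnion fun i p =>
    t2 i p.1).subset fun B ⟨p, z, q, r, s⟩ => ?_⟩
  obtain ⟨i, a, b⟩ := mem_iUnion₂.1 p
  have := And.intro a (c i a B b z q r)
  exact mem_biUnion this ⟨b, z, q, mem_iInter₂.1 s i this⟩

variable (hb : IsTopologicalBasis (Bs f))
include hb

theorem op {φ : List ℕ → Set ℕ} {m : ℕ} (h : G m φ) (n : ℕ) : IsOpen (V f φ n) :=
  hb.isOpen ⟨fun u => {c | n ≤ u.length → c ∈ φ u}, m, fun s l => mem_of_superset (h s l)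
    fun _ p _ => p, by simp [V]⟩

theorem ol {A : ℕ → Set ℕ} {n : ℕ} (h : ∀ i, n ≤ i → A i ∈ hyperfilter ℕ) :
    IsOpen {x | ∀ i, f x i ∈ A i} := by
  simpa [V] using op hb (φ := fun u => A u.length) (fun s => h _) 0

theorem oc (s : List ℕ) : IsOpen (Cy f s) := isOpen_iff_mem_nhds.2 fun x p =>
  mem_of_superset ((ol hb (A := fun i => {c | i < s.length → c = f x i}) (n := s.length)
    fun i l => univ_mem' fun _ c => (l.not_gt c).elim).mem_nhds fun _ _ => rfl) fun z q => p ▸ cy.2 q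

open Classical in
theorem rk {𝓑 : Set (Set X)} (h : IsTopologicalBasis 𝓑) (t : List ℕ) : ∃ φ, G 0 φ ∧ ∃ C ⊆ 𝓑,
    C.Countable ∧ (∀ x, LF C x) ∧ (∀ B ∈ C, B ⊆ Cy f t) ∧ V f φ t.length ∩ Cy f t ⊆ ⋃₀ C := by
  let Q : List ℕ → Prop := fun s => ∃ φ, G 0 φ ∧ ∃ C ⊆ 𝓑, C.Countable ∧ (∀ x, LF C x) ∧
    (∀ B ∈ C, B ⊆ Cy f t ∧ ∀ z ∈ B, List.Forall₂ (· ≤ ·) s (res (f z) s.length)) ∧
      V f φ s.length ∩ Cy f s ⊆ ⋃₀ C
  have c1 : ∀ s, {b | Q (b :: s)} ∈ hyperfilter ℕ → Q s := fun s a => by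
    choose! φ p1 C p2 p3 p4 p5 p6 using fun b (q : b ∈ {b | Q (b :: s)}) => q
    refine ⟨fun u => {b | u = s → Q (b :: s)} ∩ ⋂ b ∈ {b | Q (b :: s)} ∩ {b | b ∈ u}, φ b u, fun u _ =>
      inter_mem (mem_of_superset a fun _ p _ => p) ((biInter_mem (u.finite_toSet.inter_of_right
        _)).2 fun b p => p1 b p.1 u (Nat.zero_le _)), ⋃ b ∈ {b | Q (b :: s)}, C b,
      iUnion₂_subset p2, (to_countable _).biUnion p3, fun x => lu (fun b q => p4 b q x)
        ((oc hb (res (f x) (s.length + 1))).mem_nhds (cy.2 fun _ _ => rfl)) (finite_Iic (f x s.length))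
        fun b q B r z u w => cy.1 w (Nat.lt_succ_self _) ▸ (List.forall₂_cons.1 ((p5 b q B r).2 z u)).1,
      fun B r => ?_, fun x ⟨q, r⟩ => ?_⟩
    · obtain ⟨b, q, r⟩ := mem_iUnion₂.1 r
      exact ⟨(p5 b q B r).1, fun z u => (List.forall₂_cons.1 ((p5 b q B r).2 z u)).2⟩
    have k := (q _ le_rfl).1 r
    obtain ⟨B, a, b⟩ := p6 _ k ⟨fun i l => mem_iInter₂.1 (q i (Nat.le_of_succ_le l)).2 _
      ⟨k, mr _ l⟩, congrArg (f x s.length :: ·) r⟩
    exact ⟨B, mem_biUnion k a, b⟩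
  suffices q : Q t from q.imp fun _ q => ⟨q.1, q.2.imp fun _ ⟨a, b, c, d, e⟩ =>
    ⟨a, b, c, fun B p => (d B p).1, e⟩⟩
  by_contra n
  refine n ⟨fun u => {b | ¬ Q u → ¬ Q (b :: u)}, fun u _ => ?_, ∅, empty_subset _, countable_empty,
    fun x => ⟨_, univ_mem, by simp⟩, by simp, fun x ⟨p, q⟩ => ?_⟩
  · by_cases c : Q u
    · exact univ_mem' fun _ d => (d c).elim
    exact mem_of_superset (Ultrafilter.compl_mem_iff_notMem.2 (mt (c1 u) c)) fun _ p _ => p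
  have k : ∀ m, t.length ≤ m → ¬ Q (res (f x) m) := fun m l => by
    induction l with
    | refl => exact q.symm ▸ n
    | step l ih => exact p _ l ih
  obtain ⟨B, b1, b2, b3⟩ := h.exists_subset_of_mem_open (mem_inter q (show x ∈ {z | ∀ i, f z i ∈ Ici (f x i)} from fun _ => self_mem_Ici))
    ((oc hb t).inter (ol hb (A := fun i => Ici (f x i)) (n := 0) fun i _ =>
      mem_hyperfilter_of_finite_compl (by simp)))
  obtain ⟨_, ⟨ψ, m, g, rfl⟩, v1, v2⟩ := hb.exists_subset_of_mem_open b2 (h.isOpen b1)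
  refine (k _ (le_max_left _ m) ⟨fun u => {c | m ≤ u.length → c ∈ ψ u}, fun u _ => ?_, {B},
    by simpa, countable_singleton _, fun x => ⟨_, univ_mem, (finite_singleton B).sep _⟩, fun _ e =>
      e ▸ ⟨fun z r => (b3 r).1, fun z r => (res_length _ _).symm ▸ fa (b3 r).2 _⟩, fun z ⟨r, s⟩ =>
        ⟨B, rfl, v2 fun i _ => ?_⟩⟩).elim
  · by_cases c : m ≤ u.length
    exacts [mem_of_superset (g u c) fun _ p _ => p, univ_mem' fun _ d => (c d).elim]
  rcases lt_or_ge i (max t.length m) with l | l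
  · rw [cy.1 s l, res_eq_res.2 fun k a => cy.1 s (a.trans l)]
    exact v1 i (Nat.zero_le _)
  exact r i (by simpa using l) (by simpa using le_of_max_le_right l)

open Classical in
theorem tp (x0 : X) (hc : ∀ φ, G 0 φ → {x | ∀ n, x ∉ V f φ n}.Countable) {𝓑 : Set (Set X)}
    (h : IsTopologicalBasis 𝓑) : ∃ C ⊆ 𝓑, C.Countable ∧ (∀ x, LF C x) ∧ ⋃₀ C = Set.univ := by
  choose φ p1 p2 using rk hb h
  obtain ⟨z, hz⟩ := ((hc (fun u => ⋂ w ∈ u.tails, φ w u) fun u _ => (biInter_mem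
    u.tails.finite_toSet).2 fun w _ => p1 w u (Nat.zero_le _)).insert x0).exists_eq_range
      (insert_nonempty _ _)
  have : ∀ w k, ∃ K, (IsOpen K ∧ BC f K ∧ V f (φ w) w.length ⊆ K ∧ ∀ j < k, z j ∈ Cy f w → z j ∈ K) ∧
      ∃ C ⊆ 𝓑, C.Countable ∧ (∀ x, LF C x) ∧ (∀ B ∈ C, B ⊆ Cy f w) ∧ K ∩ Cy f w ⊆ ⋃₀ C :=
    fun w k => by
    induction k with
    | zero => exact ⟨_, ⟨op hb (p1 w) _, bc _ _, Subset.rfl, by simp⟩, p2 w⟩
    | succ k ih =>
      obtain ⟨K, ⟨k1, k2, k3, k4⟩, C, c1, c2, c3, c4, c5⟩ := ih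
      by_cases c : z k ∈ Cy f w
      swap
      · exact ⟨K, ⟨k1, k2, k3, fun j l a => k4 j (lt_of_le_of_ne (Nat.le_of_lt_succ l)
          fun e => c (e ▸ a)) a⟩, C, c1, c2, c3, c4, c5⟩
      obtain ⟨B, b1, b2, b3⟩ := h.exists_subset_of_mem_open c (oc hb w)
      obtain ⟨_, ⟨ψ, m, g, rfl⟩, v1, v2⟩ := hb.exists_subset_of_mem_open b2 (h.isOpen b1)
      exact ⟨K ∪ V f ψ 0, ⟨k1.union (op hb g 0), bu k2 (bc _ _), k3.trans subset_union_left,
        fun j l a => (Nat.lt_succ_iff_lt_or_eq.1 l).elim (fun l => .inl (k4 j l a))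
          fun e => .inr (e ▸ v1)⟩, insert B C, insert_subset b1 c1, c2.insert B, fun x =>
        (c3 x).imp fun t a => ⟨a.1, (a.2.insert B).subset fun _ r => r.1.imp id (⟨·, r.2⟩)⟩,
        forall_mem_insert.2 ⟨b3, c4⟩, fun x a => sUnion_insert B C ▸ a.1.symm.imp (v2 ·)
          (c5 ⟨·, a.2⟩)⟩
  choose K k C c1 c2 c3 c4 c5 using fun w => this w w.length
  let F : List ℕ → Set X := List.rec ∅ fun _ s S => S ∪ if Disjoint (Cy f s) S then K s else ∅
  have f1 : ∀ s, BC f (F s) := fun s => by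
    induction s with
    | nil => exact be
    | cons b s ih => exact bu ih (by split_ifs; exacts [(k s).2.1, be])
  have f2 : ∀ x, ∃ m, Disjoint (Cy f (res (f x) m)) (F (res (f x) m)) ∧ x ∈ K (res (f x) m) := fun x => by
    by_contra! n
    have a : ∀ m, x ∉ F (res (f x) m) := fun m => by
      induction m with
      | zero => exact id
      | succ m ih => exact fun c => c.elim ih (by split_ifs with d; exacts [n m d, id])
    obtain ⟨l, b⟩ : ∃ l, ∀ m, l ≤ m → x ∈ K (res (f x) m) := by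
      by_cases c : x ∈ range z
      · obtain ⟨j, rfl⟩ := c
        exact ⟨j + 1, fun m l => (k _).2.2.2 j (by simpa using l) (cy.2 fun _ _ => rfl)⟩
      obtain ⟨l, c⟩ := Classical.not_forall_not.1 fun d => c (hz ▸ .inr d)
      refine ⟨l, fun m a => (k _).2.2.1 fun i b => ?_⟩
      rw [res_length] at b
      refine mem_iInter₂.1 (c i (a.trans b)) _ ((List.mem_tails _ _).2 ?_)
      induction b with
      | refl => rfl
      | step _ ih => exact ih.trans (List.suffix_cons _ _)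
    have c : ∀ m, l ≤ m → F (res (f x) m) = F (res (f x) l) := fun m p => by
      induction p with
      | refl => rfl
      | step p ih => exact (congrArg _ (if_neg fun d => n _ d (b _ p))).trans ((union_empty _).trans ih)
    obtain ⟨m, d, e⟩ := ((f1 _ x (a l)).and (eventually_ge_atTop l)).exists
    exact n m ((c m e).symm ▸ d) (b m e)
  refine ⟨⋃ w ∈ {w | Disjoint (Cy f w) (F w)}, C w, iUnion₂_subset fun w _ => c1 w,
    (to_countable _).biUnion fun w _ => c2 w, fun x => ?_, eq_univ_of_forall fun x => ?_⟩ <;>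
  obtain ⟨m, d, e⟩ := f2 x
  · refine lu (fun w _ => c3 w x) (((k _).1.inter (oc hb (res (f x) m))).mem_nhds ⟨e, cy.2 fun _ _ => rfl⟩)
      ((finite_Iic m).image (res (f x))) fun w a B b y u v => ?_
    have r : res (f y) w.length = w := c4 w B b u
    rcases le_or_gt w.length m with l | l
    · exact ⟨_, l, (res_eq_res.2 fun i g => cy.1 v.2 (g.trans_le l)).symm.trans r⟩
    refine (disjoint_left.1 a (c4 w B b u) (r ▸ monotone_nat_of_le_succ (f := fun i =>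
      F (res (f y) i)) (fun _ => subset_union_left) l (.inr ?_))).elim
    rw [res_eq_res.2 (cy.1 v.2), if_pos d]
    exact v.1
  obtain ⟨B, a, b⟩ := c5 _ ⟨e, cy.2 fun _ _ => rfl⟩
  exact ⟨B, mem_biUnion d a, b⟩

omit hb [TopologicalSpace X] in
theorem ex (hc : (𝔠 : Cardinal.{0}) = ℵ₁) : ∃ x : I → ℕ → ℕ, (∀ φ, G 0 φ →
    {a | ∀ n, a ∉ V x φ n}.Countable) ∧ ∀ φ, G 0 φ → ∃ a, a ∈ V x φ 0 := by
  classical
  obtain ⟨i⟩ := (le_def (List ℕ → Set ℕ) I).1 (by simp [← hc])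
  have : ∀ a, ∃ x : ℕ → ℕ, ∀ φ, G 0 φ → (i φ ≤ a → ∃ n, ∀ j, n ≤ j → x j ∈ φ (res x j)) ∧
      (i φ = a → ∀ j, x j ∈ φ (res x j)) := fun a => by
    obtain ⟨e, he⟩ := countable_iff_exists_injOn.1 ((cI a).preimage i.injective)
    have : ∀ u : List ℕ, ∃ c, ∀ φ, G 0 φ ∧ (i φ ≤ a ∧ e φ ≤ u.length ∨ i φ = a) → c ∈ φ u := fun u => by
      have p : {φ | i φ ≤ a ∧ e φ ≤ u.length}.Finite := .of_finite_image ((finite_Iic
        u.length).subset (image_subset_iff.2 fun _ p => p.2)) (he.mono fun _ p => p.1)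
      exact (Ultrafilter.nonempty_of_mem ((biInter_mem ((p.union ((finite_singleton a).preimage
        i.injective.injOn)).inter_of_right {φ | G 0 φ})).2 fun φ p => p.1 u (Nat.zero_le _))).imp
          fun c p => mem_iInter₂.1 p
    choose c hc using this
    let s : ℕ → List ℕ := Nat.rec [] fun _ u => c u :: u
    have r : ∀ n, res (fun n => c (s n)) n = s n := fun n => by
      induction n with
      | zero => rfl
      | succ n ih => exact congrArg (c (s n) :: ·) ih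
    exact ⟨fun n => c (s n), fun φ g => ⟨fun l => ⟨e φ, fun j p => (r j).symm ▸ hc _ φ ⟨g, .inl
      ⟨l, r j ▸ (res_length _ j).symm ▸ p⟩⟩⟩, fun l j => (r j).symm ▸ hc _ φ ⟨g, .inr l⟩⟩⟩
  choose x hx using this
  exact ⟨x, fun φ g => (cI (i φ)).mono fun a p => mem_Iic.2 (le_of_not_ge fun l =>
    let ⟨n, q⟩ := (hx a φ g).1 l; p n q), fun φ g => ⟨_, fun j _ => (hx _ φ g).2 rfl j⟩⟩

omit f hb [TopologicalSpace X] in
theorem main (hc : (𝔠 : Cardinal.{0}) = ℵ₁) : ∃ (X : Type) (_ : TopologicalSpace X), T3Space X ∧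
    LindelofSpace X ∧ (∀ B : Set (Set X), IsTopologicalBasis B → ∃ C ⊆ B,
      LocallyFinite (fun s : C => (s : Set X)) ∧ ⋃₀ C = Set.univ) ∧
    ∃ U : ℕ → Set (Set X), (∀ n, ∀ s ∈ U n, IsOpen s) ∧ (∀ n, ⋃₀ U n = Set.univ) ∧
      ∀ A : ℕ → Set (Set X), (∀ n, A n ⊆ U n ∧ (A n).Finite) → ⋃ n, ⋃₀ A n ≠ Set.univ := by
  obtain ⟨x, x1, x2⟩ := ex hc
  obtain ⟨X, f, i, c, d⟩ : ∃ (X : Type) (f : X → ℕ → ℕ), Injective f ∧ (∀ φ, G 0 φ →
      {a | ∀ n, a ∉ V f φ n}.Countable) ∧ ∀ φ, G 0 φ → ∃ a, a ∈ V f φ 0 :=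
    ⟨range x, Subtype.val, Subtype.val_injective, fun φ g => (((x1 φ g).image x).preimage
      Subtype.val_injective).mono fun ⟨_, a, rfl⟩ p => mem_image_of_mem x (show a ∈ _ from p), fun φ g =>
        let ⟨a, p⟩ := x2 φ g; ⟨⟨_, a, rfl⟩, p⟩⟩
  let := generateFrom (Bs f)
  have hb : IsTopologicalBasis (Bs f) := ⟨by
    rintro _ ⟨φ, m, g, rfl⟩ _ ⟨ψ, n, h, rfl⟩ a p
    exact ⟨_, ⟨fun u => φ u ∩ ψ u, max m n, fun u l => inter_mem (g u (le_of_max_le_left l))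
      (h u (le_of_max_le_right l)), rfl⟩, fun i l => ⟨p.1 i l, p.2 i l⟩, fun _ q =>
        ⟨fun i l => (q i l).1, fun i l => (q i l).2⟩⟩, eq_univ_of_forall fun _ =>
    ⟨_, ⟨fun _ => Set.univ, 0, fun _ _ => univ_mem, rfl⟩, fun _ _ => trivial⟩, rfl⟩
  have cl : ∀ φ, IsClosed (V f φ 0) := fun φ => ⟨isOpen_iff_mem_nhds.2 fun a p =>
    let ⟨n, q⟩ := (bc φ 0 a p).exists
    mem_of_superset ((oc hb _).mem_nhds (cy.2 fun _ _ => rfl)) (disjoint_left.1 q)⟩
  have : RegularSpace X := .of_hasBasis (fun _ => hb.nhds_hasBasis) fun _ _ ⟨⟨φ, _, _, e⟩, _⟩ =>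
    e ▸ cl φ
  have : T0Space X := ⟨fun a b e => i (res_injective (funext fun n => ((e.mem_open_iff
    (oc hb _)).2 (cy.2 fun _ _ => rfl) : a ∈ Cy f (res (f b) n)) ▸ by simp))⟩
  obtain ⟨x0, -⟩ := d _ fun _ _ => univ_mem
  have o : ∀ n k, IsOpen {a | f a n = k} := fun n k => by
    simpa using ol hb (A := fun i => {c | i = n → c = k}) (n := n + 1) fun i l =>
      univ_mem' fun _ c => by omega
  refine ⟨X, _, {}, ⟨isLindelof_of_countable_subcover fun {ι} U u c' => ?_⟩, fun B h => ?_,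
    fun n => range fun k => {a | f a n = k}, fun n => forall_mem_range.2 (o n), fun n =>
    eq_univ_of_forall fun a => ⟨_, ⟨_, rfl⟩, rfl⟩, fun A a e => ?_⟩
  · obtain ⟨C, c1, c2, -, c3⟩ := tp hb x0 c (isTopologicalBasis_of_isOpen_of_nhds (s := {B |
      IsOpen B ∧ ∃ i, B ⊆ U i}) (fun _ p => p.1) fun a W p q => let ⟨i, r⟩ := mem_iUnion.1 (c' (mem_univ a))
        ⟨W ∩ U i, ⟨q.inter (u i), i, inter_subset_right⟩, ⟨p, r⟩, inter_subset_left⟩)
    choose j hj using fun B : C => (c1 B.2).2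
    have := c2.to_subtype
    exact ⟨range j, countable_range _, fun a _ => let ⟨B, p, q⟩ := c3.ge (mem_univ a)
      mem_biUnion ⟨⟨B, p⟩, rfl⟩ (hj _ q)⟩
  · obtain ⟨C, c1, -, c2, c3⟩ := tp hb x0 c h
    exact ⟨C, c1, fun a => (c2 a).imp fun t p => ⟨p.1, (p.2.preimage
      Subtype.val_injective.injOn).subset fun B q => ⟨B.2, q⟩⟩, c3⟩
  choose! k hk using fun n B (p : B ∈ A n) => (a n).1 p
  obtain ⟨y, p⟩ := d (fun u => (k u.length '' A u.length)ᶜ) fun u _ =>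
    mem_hyperfilter_of_finite_compl (by simpa using (a _).2.image _)
  obtain ⟨n, B, q, r⟩ := mem_iUnion.1 (e.ge (mem_univ y))
  have := p n (Nat.zero_le n)
  simp only [res_length] at this
  exact this ⟨B, q, (show y ∈ {a | f a n = _} from (hk n B q).ge r).symm⟩

end Pool.Agent.H.MP_a4b8ee_gt
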